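import Pool.Agent.H176.Fish.Extract

/-!
Full positive answer to Q1 of `MP_0ade3f_co`: for every `n ≥ 1` the numbers of left-to-right
maxima and of right-to-left maxima have symmetric joint distribution on the permutations of
size `n` avoiding the bivincular pattern.

Idea of the proof.  The avoiders are built by appending a last value; a state is the rank of the
last value among the admissible values, the number of admissible values and the set of ranks of
the right-to-left maxima.  The generating function of the process is computed with explicit
potentials (in a ring where the length variable `x` is nilpotent) and comes out as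

  `∑ p ^ lrmax * v ^ rlmax * x ^ n
     = p * v * x * ∑_{k, m ≥ 0} (1 - x) ^ (- k * m)
        * ∏_{i < k} (1 - (1 - p * x) * (1 - x) ^ i) * ∏_{i < m} (1 - (1 - v * x) * (1 - x) ^ i)`,

which is symmetric in `p` and `v` (theorem `Pool.Agent.H176.Fish.main`).
-/

namespace Pool.Agent.Results.MP_0ade3f_co.LRRLSymmetry

open Pool.Agent.H176.Fish

/-- For every `n ≥ 1` and all `a, b`, the number of permutations of size `n` in `A_n` with
`lrmax = a` and `rlmax = b` equals the number of those with `lrmax = b` and `rlmax = a`. -/
theorem result (n : ℕ) (hn : 1 ≤ n) (a b : ℕ) :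
    {π : Equiv.Perm (Fin n) | Av π ∧ lrmax π = a ∧ rlmax π = b}.ncard
      = {π : Equiv.Perm (Fin n) | Av π ∧ lrmax π = b ∧ rlmax π = a}.ncard := by
  classical
  obtain ⟨m, rfl⟩ : ∃ m, n = m + 1 := ⟨n - 1, by omega⟩
  rw [Set.ncard_eq_toFinset_card', Set.ncard_eq_toFinset_card']
  have h := count_symm m a b
  convert h using 2
  · ext π; simp
  · ext π; simp

end Pool.Agent.Results.MP_0ade3f_co.LRRLSymmetry
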